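import Mathlib
import Pool.Agent.Q202.UT.Const

/-!
# MP_ba14eb_lc: a complete `∃_2`-axiomatizable relational theory with an unbounded type

`Hier true n` / `Hier false n` (from `Pool.Agent.Q202.UT.Logic`) are the classes of `∀_n`- and
`∃_n`-formulas: `Hier b 0` consists of the quantifier-free formulas, `Hier b (n + 1)` contains
`Hier (!b) n`, and `Hier true (n + 1)` (resp. `Hier false (n + 1)`) is closed under adding a
universal (resp. existential) quantifier in front; so a `∀_{n+1}`-formula is a possibly empty block
of universal quantifiers followed by an `∃_n`-formula, and dually.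
-/

namespace Pool.Agent.Results.MP_ba14eb_lc.UnboundedType

open FirstOrder FirstOrder.Language
open Pool.Agent.Q202.UT

universe u v

/-- The theory `T` has an axiomatization consisting of `∀_n`-sentences (`b = true`), resp. of
`∃_n`-sentences (`b = false`). -/
def Axiomatizable {L : FirstOrder.Language.{u, v}} (b : Bool) (n : ℕ) (T : L.Theory) : Prop :=
  ∃ V : L.Theory, (∀ σ ∈ V, Hier b n σ) ∧ ∀ σ : L.Sentence, V ⊨ᵇ σ ↔ T ⊨ᵇ σ

/-- `T` is bounded: it is `∀_n`-axiomatizable for some finite `n`. -/
def Bounded {L : FirstOrder.Language.{u, v}} (T : L.Theory) : Prop :=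
  ∃ n, Axiomatizable true n T

/-- There are a countable relational language `L`, a complete `∃_2`-axiomatizable `L`-theory `T`
and a complete type `p ∈ S_1(T)` such that `p`, regarded as a complete theory in `L ∪ {c}`, is
unbounded. -/
theorem result : ∃ L : FirstOrder.Language.{0, 0}, L.IsRelational ∧ Countable L.Symbols ∧
    ∃ T : L.Theory, T.IsComplete ∧ Axiomatizable false 2 T ∧
      ∃ p : T.CompleteType (Fin 1), ¬ Bounded p.toTheory := by
  refine ⟨LE, ?_, ?_, Pool.Agent.Q202.UT.T, ?_, ⟨U, fun σ h => h.2, fun σ => ⟨?_, ?_⟩⟩, pT, ?_⟩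
  · exact fun n => inferInstanceAs (IsEmpty Empty)
  · have h1 : Countable (Σ l, LE.Functions l) := by
      have : IsEmpty (Σ l, LE.Functions l) := ⟨fun x => Empty.elim x.2⟩
      infer_instance
    have h2 : Countable (Σ l, LE.Relations l) := by
      have : Function.Surjective (fun k : ℕ => (⟨2, Rl.E k⟩ : Σ l, LE.Relations l)) := by
        rintro ⟨l, r⟩
        cases r with
        | E k => exact ⟨k, rfl⟩
      exact this.countable
    unfold Language.Symbols
    infer_instance
  · exact (completeTheory.isMaximal LE MS).isComplete
  · intro h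
    exact Theory.models_of_models_theory
      (fun φ hφ => Theory.models_sentence_of_mem hφ.1) h
  · intro h
    rw [Theory.models_sentence_iff]
    intro N
    rw [model_U_iff N inferInstance]
    exact h.realize_sentence MS
  · rintro ⟨n, V, hV, h⟩
    exact unbounded n V hV h

end Pool.Agent.Results.MP_ba14eb_lc.UnboundedType
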